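import Pool.Agent.N137.AO.Fin

/-!
# Dynamical Mordell-Lang for orbits attracted by a fixed point with real multipliers
-/

set_option autoImplicit false

open MvPolynomial Filter
open Pool.Agent.N137.AO (Tan dF Mult)

namespace Pool.Agent.Results.MP_295d38_ag.AttractedOrbits

/-- **Dynamical Mordell-Lang for orbits attracted by a noncritical fixed point.**
Let `v` be an absolute value on `ℂ` with `v(n) ≥ 1` for all integers `n ≥ 1` (for instance the usual
one). Let `F = (f_1 / g, ..., f_m / g)` be a rational self-map of affine space `ℂ^m` and `x_n` a
sequence with `x_{n+1} = F(x_n)` for all large `n` that converges `v`-adically exponentially fast to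
a point `p` with `g(p) ≠ 0`; then `p` is a fixed point of `F`. Let `X` be the Zariski closure of a
far tail of the orbit and let the multipliers be the eigenvalues of the differential of `F` at `p` on
the Zariski tangent space `T_p X`. Suppose that zero is not a multiplier, and that for some `N ≥ 1`
any two monomials `a, b` in the multipliers with `v(a) = v(b)` satisfy `a^N = b^N`. (If `v` is the
usual absolute value this holds with `N = 2` as soon as all multipliers are real, and with `N = 1` if
they are positive real numbers, or if the logarithms of their absolute values are linearly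
independent over the rationals.) Then for every Zariski closed set `V` (the zero locus of a set `S`
of polynomials) the set of `n` with `x_n ∈ V` is a finite union of arithmetic progressions with
common differences `0` and `N`.

Any orbit of an endomorphism of a quasiprojective variety that converges to a fixed point is of this
form: choose an affine chart that contains the limit and the orbit, and note that
`x_n` lies, for large `n`, in the open set where a given formula for the map at `p` is valid. No
nonresonance or diagonalisability of the differential is assumed, and `X` may be singular at `p`. -/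
theorem result :
    ∀ (v : AbsoluteValue ℂ ℝ), (∀ n : ℕ, n ≠ 0 → 1 ≤ v n) →
    ∀ (m : ℕ) (f : Fin m → MvPolynomial (Fin m) ℂ) (g : MvPolynomial (Fin m) ℂ)
      (x : ℕ → Fin m → ℂ) (p : Fin m → ℂ) (C c : ℝ) (N : ℕ),
      eval p g ≠ 0 →
      (∀ᶠ n in atTop, ∀ i, x (n + 1) i * eval (x n) g = eval (x n) (f i)) →
      0 < c → c < 1 → (∀ᶠ n in atTop, ∀ i, v (x n i - p i) ≤ C * c ^ n) →
      (0 : ℂ) ∉ Mult f g x p →
      N ≠ 0 →
      (∀ a ∈ Submonoid.closure (Mult f g x p), ∀ b ∈ Submonoid.closure (Mult f g x p),
        v a = v b → a ^ N = b ^ N) →
      ∀ S : Set (MvPolynomial (Fin m) ℂ), ∃ T : Finset (ℕ × ℕ),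
        (∀ t ∈ T, t.2 = 0 ∨ t.2 = N) ∧
        {n : ℕ | ∀ h ∈ S, eval (x n) h = 0} =
        {n : ℕ | ∃ t ∈ T, ∃ k : ℕ, n = t.1 + t.2 * k} := by
  intro v hv m f g x p C c N gp hstep hc0 hc hconv h0 hN hR S
  exact Pool.Agent.N137.AO.final_A v hv f g x p C c gp hstep hc0 hc hconv h0 N hN hR S

end Pool.Agent.Results.MP_295d38_ag.AttractedOrbits
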