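import Pool.Agent.N137.AO.FinB

/-!
# Dynamical Mordell-Lang for attracted orbits at places of residue characteristic zero
-/

set_option autoImplicit false

open MvPolynomial Filter
open Pool.Agent.N137.AO (Tan dF Mult)

namespace Pool.Agent.Results.MP_295d38_ag.AttractedOrbitsResidueZero

/-- **Dynamical Mordell-Lang for orbits attracted by a noncritical fixed point at a place of residue
characteristic zero, without conditions on the multipliers.**
Let `v` be a nonarchimedean absolute value on `ℂ` with `v(n) = 1` for all integers `n ≥ 1`, that is,
of residue characteristic zero (for instance an extension of the `t`-adic absolute value of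
`ℚ(t) ⊂ ℂ`, `t` a transcendental number). Let `F = (f_1 / g, ..., f_m / g)` be a rational self-map of
affine space `ℂ^m` and `x_n` a sequence with `x_{n+1} = F(x_n)` for all large `n` that converges
`v`-adically exponentially fast to a point `p` with `g(p) ≠ 0`; then `p` is a fixed point of `F`. Let
`X` be the Zariski closure of a far tail of the orbit. Suppose that the differential of `F` at `p` is
injective on the Zariski tangent space `T_p X`, that is, zero is not an eigenvalue with an
eigenvector in `T_p X`. Then for every Zariski closed set `V` (the zero locus of a set `S` of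
polynomials) the set of `n` with `x_n ∈ V` is a finite union of arithmetic progressions.

Any orbit of an endomorphism of a quasiprojective variety that converges to a fixed point is of this
form: choose an affine chart that contains the limit and the orbit, and note that
`x_n` lies, for large `n`, in the open set where a given formula for the map at `p` is valid. The
multipliers are arbitrary nonzero numbers (resonances, Jordan blocks, quotients that are roots of
unity or close to roots of unity are allowed), and `X` may be singular at `p`. -/
theorem result :
    ∀ (v : AbsoluteValue ℂ ℝ), IsNonarchimedean v → (∀ n : ℕ, n ≠ 0 → v n = 1) →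
    ∀ (m : ℕ) (f : Fin m → MvPolynomial (Fin m) ℂ) (g : MvPolynomial (Fin m) ℂ)
      (x : ℕ → Fin m → ℂ) (p : Fin m → ℂ) (C c : ℝ),
      eval p g ≠ 0 →
      (∀ᶠ n in atTop, ∀ i, x (n + 1) i * eval (x n) g = eval (x n) (f i)) →
      0 < c → c < 1 → (∀ᶠ n in atTop, ∀ i, v (x n i - p i) ≤ C * c ^ n) →
      (0 : ℂ) ∉ Mult f g x p →
      ∀ S : Set (MvPolynomial (Fin m) ℂ), ∃ T : Finset (ℕ × ℕ),
        {n : ℕ | ∀ h ∈ S, eval (x n) h = 0} =
        {n : ℕ | ∃ t ∈ T, ∃ k : ℕ, n = t.1 + t.2 * k} := by
  intro v hv hn m f g x p C c gp hstep hc0 hc hconv h0 S
  exact Pool.Agent.N137.AO.final_B v hv hn f g x p C c gp hstep hc0 hc hconv h0 S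

end Pool.Agent.Results.MP_295d38_ag.AttractedOrbitsResidueZero
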