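import Pool.Agent.N84.TS.Quad
import Pool.Agent.Results.MP_295d38_ag.QuadraticLinePowers

set_option autoImplicit false

/-!
# Dynamical Mordell-Lang for tuples of quadratic functions along thin sequences of parameters

Let `P_0, P_1, P_2, ...` be an infinite sequence of generalised polynomials `P(t) = ∑ a_x t ^ x`
(finitely many real exponents, real coefficients, depending on `l`) with distinct leading exponents
which are positive and not integers and have positive coefficients; for example
`P_l(t) = t ^ (l + √2)`, or `P_l(t) = t ^ (1 / (l + 2))`.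

**Theorem.** There is ONE set `E` of integers, containing only the proportion `(log N) ^ (-A)` of the
integers and of the PRIMES in `(N, 2 N]` for every `A`, such that for all `k` and all `k`-tuples
`f_1, ..., f_k` of quadratic rational functions whose `6 k` coefficients are the integers `⌊P_l(t)⌋` for
distinct `l`: for all but finitely many `t` outside `E`, for ALL `N`, `τ` and `σ` the map
`(P_i) ↦ (f_(τ i) (P_(σ i)))` is an endomorphism of `(ℙ^1)^N` with the full Dynamical Mordell-Lang
property (all complex points, all closed subvarieties over `ℂ`).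

The starting result `QuadraticLinePowers` has this property for 100 percent of the coefficient vectors
in large boxes. Here only one parameter `t` runs (through integers, or primes), the coefficient
vectors are `N` of the `N ^ (c_1 + ... + c_(6 k))` vectors of a box, and one exceptional set works for
all tuples.

Proof. The vectors of the `⌊P_l(t)⌋` are equidistributed modulo all `q ≤ N ^ κ` (exponential sums of
the starting library, engine of helper666). For a positive proportion of the residues modulo a large
prime `p` all critical points of the `f_j` are rational and outside the images of the rational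
points (starting library TH838), and this implies the property by `p`-adic interpolation. The block
sieve shows that all but the proportion `N ^ (-δ)` of the `t` have such a prime
`p ≤ (log N) ^ 4`; a diagonal argument gives one set `E`.
-/

namespace Pool.Agent.Results.MP_295d38_ag.ThinQuadraticTuples

open Pool.Agent.Results.MP_295d38_ag.QuadraticLinePowers (qmap DML Regular)

/-- `e` is the largest exponent of the generalised polynomial `∑ a_x t ^ x`; it is positive and not an
integer and has a positive coefficient. -/
def Admissible (F : Finset ℝ) (a : ℝ → ℝ) (e : ℝ) : Prop :=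
  e ∈ F ∧ (∀ x ∈ F, x ≤ e) ∧ 0 < e ∧ (∀ m : ℕ, e ≠ m) ∧ 0 < a e

/-- The integer part of the value at `t` of the generalised polynomial `P_l`. -/
noncomputable def value (F : ℕ → Finset ℝ) (a : ℕ → ℝ → ℝ) (l t : ℕ) : ℤ :=
  ⌊∑ x ∈ F l, a l x * (t : ℝ) ^ x⌋

/-- `E` contains at most the proportion `(log N) ^ (-A)` of the set `S N`, `N ≥ N₀(A)`, for every
`A`. -/
def VeryThin (S : ℕ → Finset ℕ) (E : Set ℕ) : Prop :=
  ∀ A : ℕ, ∃ N₀ : ℕ, ∀ N : ℕ, N₀ ≤ N →
    ({t : ℕ | t ∈ S N ∧ t ∈ E}.ncard : ℝ) * Real.log N ^ A ≤ (S N).card

theorem result (F : ℕ → Finset ℝ) (a : ℕ → ℝ → ℝ) (e : ℕ → ℝ)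
    (h : ∀ l, Admissible (F l) (a l) (e l)) (he : Function.Injective e) :
    ∃ E : Set ℕ, VeryThin (fun N => Finset.Ioc N (2 * N)) E ∧
      VeryThin (fun N => (Finset.Ioc N (2 * N)).filter Nat.Prime) E ∧
      ∀ k : ℕ, 1 ≤ k → ∀ l : Fin k × Fin 2 × Fin 3 → ℕ, Function.Injective l →
        {t : ℕ | t ∉ E ∧ ¬ ∀ (N : ℕ) (τ : Fin N → Fin k) (σ : Fin N → Fin N),
          Regular (qmap τ σ fun q => value F a (l q) t) ∧
            DML (qmap τ σ fun q => value F a (l q) t)}.Finite := by
  obtain ⟨E, h1, h2, h3⟩ := Pool.Agent.N84.TS.one_set h he
  refine ⟨E, h1, h2, fun k hk l hl => (h3 k hk l hl).subset ?_⟩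
  rintro t ⟨ht, ht'⟩
  refine ⟨ht, fun hg => ht' fun N τ σ => ?_⟩
  exact Pool.Agent.Results.MP_295d38_ag.QuadraticLinePowers.main
    (fun q => value F a (l q) t) hg τ σ

end Pool.Agent.Results.MP_295d38_ag.ThinQuadraticTuples
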